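import Pool.Agent.K6.H23.SAvCount

/-!
# Permutations that strongly avoid 321 and 1342

A permutation of `{1, …, n}` avoiding `321` and `1342` whose last entry is not `n` is either of the
form `σ ⊕ (k 1 2 ⋯ k-1)` with `k ≥ 2` or belongs to an explicit family with three parameters. If its
square also avoids `321` and `1342` it ends with a direct summand `21` or it is a rotation
`r+1, …, n, 1, …, r`. This gives `s(n) = s(n-1) + s(n-2) + (n-1)` for `n ≥ 3`.
-/

set_option autoImplicit false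

namespace Pool.Agent.Results.MP_aa036a_co.FibonacciFormula

open Pool.Agent.K6.H23.SAv

/-- The permutation `π` contains the pattern `τ`: there are positions `i 0 < i 1 < ⋯` such that
`π (i j) < π (i k)` holds exactly when `τ j < τ k`. -/
def Contains {n m : ℕ} (π : Equiv.Perm (Fin n)) (τ : Equiv.Perm (Fin m)) : Prop :=
  ∃ i : Fin m → Fin n, StrictMono i ∧ ∀ j k, π (i j) < π (i k) ↔ τ j < τ k

/-- `SAv n T`: the permutations `π` of length `n` such that `π` and `π ^ 2 = π ∘ π` avoid all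
patterns in `T`. -/
def SAv (n : ℕ) (T : Set (Σ m, Equiv.Perm (Fin m))) : Set (Equiv.Perm (Fin n)) :=
  {π | ∀ τ ∈ T, ¬ Contains π τ.2 ∧ ¬ Contains (π ^ 2) τ.2}

/-- the pattern `321` (with entries `2, 1, 0`) -/
def p321 : Equiv.Perm (Fin 3) := ⟨![2, 1, 0], ![2, 1, 0], by decide, by decide⟩

/-- the pattern `1342` (with entries `0, 2, 3, 1`) -/
def p1342 : Equiv.Perm (Fin 4) := ⟨![0, 2, 3, 1], ![0, 3, 1, 2], by decide, by decide⟩

theorem contains_of {n m : ℕ} {π : Equiv.Perm (Fin n)} {τ : Equiv.Perm (Fin m)}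
    (i : Fin m → Fin n) (hi : StrictMono i) (h : ∀ j k, τ j < τ k → π (i j) < π (i k)) :
    Contains π τ := by
  refine ⟨i, hi, fun j k => ⟨fun h1 => ?_, h j k⟩⟩
  rcases lt_trichotomy (τ j) (τ k) with h2 | h2 | h2
  · exact h2
  · rw [τ.injective h2] at h1
    exact absurd h1 (lt_irrefl _)
  · exact absurd h1 (not_lt.2 (h k j h2).le)

theorem contains_321 {n : ℕ} (π : Equiv.Perm (Fin n)) :
    Contains π p321 ↔ ∃ a b c : Fin n, a < b ∧ b < c ∧ π c < π b ∧ π b < π a := by
  constructor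
  · rintro ⟨i, hi, h⟩
    exact ⟨i 0, i 1, i 2, hi (by decide), hi (by decide), (h 2 1).2 (by decide),
      (h 1 0).2 (by decide)⟩
  · rintro ⟨a, b, c, h1, h2, h3, h4⟩
    refine contains_of ![a, b, c] ?_ ?_
    · intro x y hxy
      fin_cases x <;> fin_cases y <;>
        first | exact absurd hxy (by decide) | exact h1 | exact h2 | exact h1.trans h2
    · intro x y hxy
      fin_cases x <;> fin_cases y <;>
        first | exact absurd hxy (by decide) | exact h3 | exact h4 | exact h3.trans h4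

theorem contains_1342 {n : ℕ} (π : Equiv.Perm (Fin n)) :
    Contains π p1342 ↔ ∃ a b c d : Fin n, a < b ∧ b < c ∧ c < d ∧
      π a < π d ∧ π d < π b ∧ π b < π c := by
  constructor
  · rintro ⟨i, hi, h⟩
    exact ⟨i 0, i 1, i 2, i 3, hi (by decide), hi (by decide), hi (by decide),
      (h 0 3).2 (by decide), (h 3 1).2 (by decide), (h 1 2).2 (by decide)⟩
  · rintro ⟨a, b, c, d, h1, h2, h3, h4, h5, h6⟩
    refine contains_of ![a, b, c, d] ?_ ?_
    · intro x y hxy
      fin_cases x <;> fin_cases y <;>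
        first
          | exact absurd hxy (by decide)
          | exact h1 | exact h2 | exact h3 | exact h1.trans h2 | exact h2.trans h3
          | exact (h1.trans h2).trans h3
    · intro x y hxy
      fin_cases x <;> fin_cases y <;>
        first
          | exact absurd hxy (by decide)
          | exact h4 | exact h5 | exact h6 | exact h4.trans h5 | exact h5.trans h6
          | exact (h4.trans h5).trans h6

/-- the extension of `π` by the identity -/
noncomputable def ex {n : ℕ} (π : Equiv.Perm (Fin n)) : Equiv.Perm ℕ := (E n π).1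

theorem ex_val {n : ℕ} (π : Equiv.Perm (Fin n)) (i : Fin n) : ex π i = (π i : ℕ) :=
  E_apply π i i.2

theorem ex_fix {n : ℕ} (π : Equiv.Perm (Fin n)) (i : ℕ) (h : n ≤ i) : ex π i = i := E_fix π i h

theorem ex_sq {n : ℕ} (π : Equiv.Perm (Fin n)) : (fun i => ex π (ex π i)) = ex (π ^ 2) := by
  funext i
  rcases Nat.lt_or_ge i n with h | h
  · have h1 := ex_val π ⟨i, h⟩
    have h2 := ex_val π (π ⟨i, h⟩)
    have h3 := ex_val (π ^ 2) ⟨i, h⟩
    simp only at h1 h3
    rw [h1, h2, h3, pow_two, Equiv.Perm.mul_apply]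
  · rw [ex_fix π i h, ex_fix π i h, ex_fix _ i h]

theorem a321_iff {n : ℕ} (π : Equiv.Perm (Fin n)) : A321 (ex π) ↔ ¬ Contains π p321 := by
  rw [contains_321]
  constructor
  · rintro h ⟨a, b, c, h1, h2, h3, h4⟩
    apply h a b c h1 h2
    · rw [ex_val, ex_val]; exact h3
    · rw [ex_val, ex_val]; exact h4
  · intro h i j k hij hjk h1 h2
    have hlt : ∀ i, i < n → ex π i < n := fun i hi => lt_of_fix (ex_fix π) hi
    have hk : k < n := by
      by_contra hc
      have e1 := ex_fix π k (by omega)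
      rcases Nat.lt_or_ge j n with hj | hj
      · have := hlt j hj
        omega
      · have := ex_fix π j hj
        omega
    refine h ⟨⟨i, by omega⟩, ⟨j, by omega⟩, ⟨k, hk⟩, hij, hjk, ?_, ?_⟩
    · rw [Fin.lt_def, ← ex_val, ← ex_val]; exact h1
    · rw [Fin.lt_def, ← ex_val, ← ex_val]; exact h2

theorem a1342_iff {n : ℕ} (π : Equiv.Perm (Fin n)) : A1342 (ex π) ↔ ¬ Contains π p1342 := by
  rw [contains_1342]
  constructor
  · rintro h ⟨a, b, c, d, h1, h2, h3, h4, h5, h6⟩
    apply h a b c d h1 h2 h3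
    · rw [ex_val, ex_val]; exact h4
    · rw [ex_val, ex_val]; exact h5
    · rw [ex_val, ex_val]; exact h6
  · intro h i j k l hij hjk hkl h1 h2 h3
    have hlt : ∀ i, i < n → ex π i < n := fun i hi => lt_of_fix (ex_fix π) hi
    have hl : l < n := by
      by_contra hc
      have e1 := ex_fix π l (by omega)
      rcases Nat.lt_or_ge j n with hj | hj
      · have := hlt j hj
        omega
      · have := ex_fix π j hj
        omega
    refine h ⟨⟨i, by omega⟩, ⟨j, by omega⟩, ⟨k, by omega⟩, ⟨l, hl⟩, hij, hjk, hkl, ?_, ?_, ?_⟩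
    · rw [Fin.lt_def, ← ex_val, ← ex_val]; exact h1
    · rw [Fin.lt_def, ← ex_val, ← ex_val]; exact h2
    · rw [Fin.lt_def, ← ex_val, ← ex_val]; exact h3

theorem mem_iff {n : ℕ} (π : Equiv.Perm (Fin n)) :
    π ∈ SAv n {⟨3, p321⟩, ⟨4, p1342⟩} ↔ Good (ex π) := by
  unfold Good
  rw [ex_sq, a321_iff, a1342_iff, a321_iff, a1342_iff]
  constructor
  · intro h
    have h1 := h ⟨3, p321⟩ (by simp)
    have h2 := h ⟨4, p1342⟩ (by simp)
    exact ⟨h1.1, h2.1, h1.2, h2.2⟩
  · rintro ⟨h1, h2, h3, h4⟩ τ (rfl | rfl)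
    · exact ⟨h1, h3⟩
    · exact ⟨h2, h4⟩

theorem card_eq (n : ℕ) : (SAv n {⟨3, p321⟩, ⟨4, p1342⟩}).ncard = (SS n).ncard := by
  have h1 : SS n = (fun π : Equiv.Perm (Fin n) => ex π) '' SAv n {⟨3, p321⟩, ⟨4, p1342⟩} := by
    ext f
    constructor
    · rintro ⟨hf, hg⟩
      have h2 : ex ((E n).symm ⟨f, fun a ha => hf a (not_lt.1 ha)⟩) = f := by
        unfold ex
        rw [Equiv.apply_symm_apply]
      refine ⟨(E n).symm ⟨f, fun a ha => hf a (not_lt.1 ha)⟩, ?_, h2⟩
      rw [mem_iff, h2]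
      exact hg
    · rintro ⟨π, hπ, rfl⟩
      exact ⟨ex_fix π, (mem_iff π).1 hπ⟩
  rw [h1, Set.ncard_image_of_injective]
  intro π π' h
  exact (E n).injective (Subtype.ext h)

/-- **Theorem.** For every `n ≥ 1` the number of permutations of length `n` that strongly avoid
`321` and `1342` is `2 F_{n+2} - n - 2`. -/
theorem result : ∀ n : ℕ, 1 ≤ n →
    ((SAv n {⟨3, p321⟩, ⟨4, p1342⟩}).ncard : ℤ) = 2 * (Nat.fib (n + 2) : ℤ) - n - 2 := by
  intro n hn
  obtain ⟨m, rfl⟩ : ∃ m, n = m + 1 := ⟨n - 1, by omega⟩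
  have h1 := (SS_card m).1
  have h2 : m + 1 + 2 = m + 3 := by ring
  rw [card_eq, h2]
  omega

end Pool.Agent.Results.MP_aa036a_co.FibonacciFormula
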